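import Pool.Agent.Helper22.FF.Abs

/-! # Module I_EFD: the fields `E(σ k(S))` are finite over `ℚ_p` -/

set_option autoImplicit false

namespace Pool.Agent.Helper22.FF

open Pool.Agent.Helper14.BSC Polynomial Pool.Agent.Helper60.FF Pool.Agent.Helper18.FF3

section

variable {p : ℕ} [Fact p.Prime]

theorem efd_ratFunc {F k : Type} [Field F] [Field k] [Algebra (RatFunc F) k]
    (E : IntermediateField ℚ_[p] ℂ_[p]) (σ : k →+* ℂ_[p])
    (h1 : ∀ a : F, σ (algebraMap (RatFunc F) k (RatFunc.C a)) ∈ E) (h2 : σ (uk F k) ∈ E)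
    (c : RatFunc F) : σ (algebraMap (RatFunc F) k c) ∈ E := by
  have hp : ∀ q : F[X], σ (algebraMap (RatFunc F) k (algebraMap F[X] (RatFunc F) q)) ∈ E := by
    intro q
    induction q using Polynomial.induction_on with
    | C a =>
      rw [RatFunc.algebraMap_C]
      exact h1 a
    | add q r hq hr =>
      rw [map_add, map_add, map_add]
      exact add_mem hq hr
    | monomial n a h =>
      rw [pow_succ, ← mul_assoc, map_mul, map_mul, map_mul]
      refine mul_mem h ?_
      rw [RatFunc.algebraMap_X]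
      exact h2
  induction c using RatFunc.induction_on with
  | f q r hr =>
    rw [map_div₀, map_div₀]
    exact div_mem (hp q) (hp r)

theorem efd_le {E₁ E₂ : IntermediateField ℚ_[p] ℂ_[p]} (h : E₁ ≤ E₂)
    (h2 : FiniteDimensional ℚ_[p] E₂) : FiniteDimensional ℚ_[p] E₁ :=
  FiniteDimensional.of_injective (IntermediateField.inclusion h).toLinearMap
    (IntermediateField.inclusion h).injective

/-- the case of `k` -/
theorem efd_base {F k : Type} [Field F] [Field k] [Algebra (RatFunc F) k]
    [FiniteDimensional (RatFunc F) k]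
    (E : IntermediateField ℚ_[p] ℂ_[p]) (hE : FiniteDimensional ℚ_[p] E) (σ : k →+* ℂ_[p])
    (h1 : ∀ a : F, σ (algebraMap (RatFunc F) k (RatFunc.C a)) ∈ E) (h2 : σ (uk F k) ∈ E) :
    FiniteDimensional ℚ_[p] (Es E σ) := by
  have hr := efd_ratFunc E σ h1 h2
  set b := Module.finBasis (RatFunc F) k with hb
  -- the values are integral over `E`
  have hint : ∀ x : k, IsIntegral ℚ_[p] (σ x) := by
    intro x
    have hx : IsIntegral (RatFunc F) x := IsIntegral.of_finite (RatFunc F) x
    set g : RatFunc F →+* E :=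
      { toFun := fun c => ⟨σ (algebraMap (RatFunc F) k c), hr c⟩
        map_one' := Subtype.ext (by simp)
        map_mul' := fun c d => Subtype.ext (by simp)
        map_zero' := Subtype.ext (by simp)
        map_add' := fun c d => Subtype.ext (by simp) } with hg
    have h3 : IsIntegral E (σ x) := by
      obtain ⟨q, hq, hqx⟩ := hx
      refine ⟨q.map g, hq.map g, ?_⟩
      rw [eval₂_map]
      have h4 : (algebraMap E ℂ_[p]).comp g = σ.comp (algebraMap (RatFunc F) k) := rfl
      rw [h4, ← hom_eval₂, hqx, map_zero]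
    exact isIntegral_trans (R := ℚ_[p]) (A := E) (σ x) h3
  have hfd : FiniteDimensional ℚ_[p]
      (IntermediateField.adjoin ℚ_[p] (Set.range fun i => σ (b i))) :=
    IntermediateField.finiteDimensional_adjoin (fun x hx => by
      obtain ⟨i, rfl⟩ := hx
      exact hint _)
  have hsup : FiniteDimensional ℚ_[p]
      (E ⊔ IntermediateField.adjoin ℚ_[p] (Set.range fun i => σ (b i)) :
        IntermediateField ℚ_[p] ℂ_[p]) :=
    IntermediateField.finiteDimensional_sup E _
  refine efd_le ?_ hsup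
  unfold Es
  refine sup_le le_sup_left ?_
  rw [IntermediateField.adjoin_le_iff]
  rintro _ ⟨x, rfl⟩
  rw [← b.sum_repr x]
  simp only [Algebra.smul_def, map_sum, map_mul]
  refine sum_mem fun i _ => mul_mem ?_ ?_
  · exact (le_sup_left : E ≤ _) (hr _)
  · exact (le_sup_right : IntermediateField.adjoin ℚ_[p] (Set.range fun i => σ (b i)) ≤ _)
      (IntermediateField.subset_adjoin _ _ ⟨i, rfl⟩)

end

theorem st_EFD : ST_EFD := by
  intro F k Ω _ _ _ _ _ _ _ _ _ hFU p _ ι₀ E hE hιE τ hτ
  have hT0 : ∀ σ ∈ T0 k ι₀ τ, FiniteDimensional ℚ_[p] (Es E σ) := by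
    rintro σ ⟨h1, h2⟩
    refine efd_base (F := F) E hE σ (fun a => ?_) ?_
    · rw [h1 a]
      exact hιE a
    · rw [h2]
      exact hτ
  refine ⟨?_, hT0⟩
  rintro S - hS σ ⟨h1, h2, h3⟩
  have hσ' : σ.comp (algebraMap k (kS k S)) ∈ T0 k ι₀ τ := ⟨h1, h3⟩
  refine efd_le ?_ (hT0 _ hσ')
  unfold Es
  refine sup_le le_sup_left ?_
  rw [IntermediateField.adjoin_le_iff]
  rintro _ ⟨x, rfl⟩
  change σ x ∈ Es E (σ.comp (algebraMap k (kS k S)))
  obtain ⟨x, hx⟩ := x
  induction hx using IntermediateField.adjoin_induction with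
  | mem y hy =>
    obtain ⟨s, hs, rfl⟩ := hy
    have := h2 s hs
    change σ ⟨(s : Ω), _⟩ = ι₀ s at this
    change σ ⟨(s : Ω), _⟩ ∈ _
    rw [this]
    exact le_Es _ _ (hS s hs)
  | algebraMap y => exact mem_Es E (σ.comp (algebraMap k (kS k S))) y
  | add y z hy hz h4 h5 =>
    have := add_mem h4 h5
    rwa [← map_add] at this
  | inv y hy h4 =>
    have := inv_mem h4
    rwa [← map_inv₀] at this
  | mul y z hy hz h4 h5 =>
    have := mul_mem h4 h5
    rwa [← map_mul] at this

end Pool.Agent.Helper22.FF
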