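import Pool.Agent.Helper22.FF.Sect
import Pool.Agent.Helper22.TW.Stmts

/-! # Module I_PSI: the factor `psi` in terms of an arbitrary place -/

set_option autoImplicit false

namespace Pool.Agent.Helper22.FF

open Pool.Agent.Helper14.BSC Polynomial Pool.Agent.Helper60.FF Pool.Agent.Helper18.FF3

theorem st_PSI (hU : Pool.Agent.Helper22.TW.ST_UNQ) : ST_PSI := by
  intro k Ω _ _ _ _ _ D t p _ σ P
  constructor
  · intro ht
    unfold psi
    rw [dif_neg]
    rintro ⟨P', hP'⟩
    exact ht ((hU k Ω D p σ P' P).1 ▸ hP')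
  · intro h
    have hex : ∃ P : Place D p σ, t ∈ P.C := ⟨P, h⟩
    unfold psi
    rw [dif_pos hex]
    rw [(hU k Ω D p σ hex.choose P).2 t hex.choose_spec h]

end Pool.Agent.Helper22.FF
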